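import Mathlib
import Pool.Agent.U880.MB.Real
import Pool.Agent.U737.MN.Done
import Pool.Agent.U737.MN.Prod

/-!
# Malle's conjecture for `C₂ ≀ H`, `H` in an arbitrary action of large degree, over all sufficiently large
number fields

`H` is any finite group acting transitively and faithfully on a finite set `P`, and `C₂ ≀ H` acts on
`P × {0, 1}`. Let `q` be the index of a core-free subgroup `U` of `H`. If `|P| ≥ 8 log₂ |H| q (q + 1)`, or
if `|P| ≥ 8 q (q + 1)` and `U` contains the stabilizer of a point of `P`, then there is a number field `K₀`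
such that the asymptotic formula, with the exponents of Malle, holds over all number fields containing
`K₀`. No realization of `H` over any number field is assumed.

Project MN: helper737 with parts by helpers 55, 178, 261, 358, 404, 608, 630, 810, 875, 891, 894, 980;
realization over large number fields: helper880. The regular action is `MP_b39724_nt.LargeFieldWreaths`
(helper880), from which the part on elements of least index is adapted.
-/

set_option autoImplicit false
set_option linter.all false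

open Filter

namespace Pool.Agent.Results.MP_b39724_nt.LargeActions

/-- The index of a permutation `g` of `{1, ..., n}`: `n` minus the number of orbits of the group generated
by `g`. -/
noncomputable def ind {n : ℕ} (g : Equiv.Perm (Fin n)) : ℕ :=
  n - Nat.card (Quotient (Equiv.Perm.SameCycle.setoid g))

/-- `ind (G)`: the least index of the elements of `G` different from `1`. -/
noncomputable def minInd {n : ℕ} (G : Subgroup (Equiv.Perm (Fin n))) : ℕ :=
  sInf {i | ∃ g ∈ G, g ≠ 1 ∧ ind g = i}

/-- `g` and `h` are `K`-conjugate in `G`: `h` is conjugate in `G` to `g ^ a`, where some automorphism of the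
algebraic closure over `K` raises the roots of unity of order dividing `|G|` to the power `a`. -/
def KConj (K : Type) [Field K] {n : ℕ} (G : Subgroup (Equiv.Perm (Fin n))) (g h : G) : Prop :=
  ∃ (σ : AlgebraicClosure K ≃ₐ[K] AlgebraicClosure K) (a : ℕ),
    (∀ ζ : AlgebraicClosure K, ζ ^ Nat.card G = 1 → σ ζ = ζ ^ a) ∧ ∃ x : G, h = x * g ^ a * x⁻¹

/-- `β_K (G)`: the number of the `K`-conjugacy classes of elements `≠ 1` of `G` of the least index. -/
noncomputable def beta (K : Type) [Field K] {n : ℕ} (G : Subgroup (Equiv.Perm (Fin n))) : ℕ :=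
  Nat.card (Quot fun g h : {g : G // (g : Equiv.Perm (Fin n)) ≠ 1 ∧
    ind (g : Equiv.Perm (Fin n)) = minInd G} => KConj K G g.1 h.1)

/-- `G ≤ S_d` is, up to a bijection `f` of `{1, ..., d}` with `P × {0, 1}`, the wreath product
`C₂ ≀ H`: it consists of all permutations `π` for which there is `h ∈ H` such that `π` maps the block
`{x} × {0, 1}` to the block `{h x} × {0, 1}`, for all `x ∈ P`. -/
def IsC2Wreath (H P : Type) [Group H] [MulAction H P] {d : ℕ} (G : Subgroup (Equiv.Perm (Fin d))) :
    Prop :=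
  ∃ f : Fin d ≃ P × Bool, ∀ π : Equiv.Perm (Fin d), π ∈ G ↔ ∃ h : H, ∀ i, (f (π i)).1 = h • (f i).1

/-- The fields `L` between `K` and its algebraic closure, of degree `d` over `K`, whose Galois group,
acting on the embeddings, is `G` (up to numbering), and whose relative discriminant has norm at most
`B` (that is, `|d_L| ≤ B |d_K| ^ d`). -/
def Ext (K : Type) [Field K] [NumberField K] (d : ℕ) (G : Subgroup (Equiv.Perm (Fin d)))
    (B : ℝ) : Set (IntermediateField K (AlgebraicClosure K)) :=
  {L | Module.finrank K L = d ∧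
    (∃ e : (L →ₐ[K] AlgebraicClosure K) ≃ Fin d, ∀ π : Equiv.Perm (Fin d),
      π ∈ G ↔ ∃ σ : AlgebraicClosure K ≃ₐ[K] AlgebraicClosure K,
        ∀ φ : L →ₐ[K] AlgebraicClosure K, e (σ.toAlgHom.comp φ) = π (e φ)) ∧
    ∃ h : NumberField L,
      ((|@NumberField.discr L _ h| : ℤ) : ℝ) ≤ B * ((|NumberField.discr K| : ℤ) : ℝ) ^ d}

/-- `N(K, G; B)`: the number of these fields up to `K`-isomorphism. -/
noncomputable def N (K : Type) [Field K] [NumberField K] (d : ℕ)
    (G : Subgroup (Equiv.Perm (Fin d))) (B : ℝ) : ℕ :=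
  Nat.card (Quot fun L L' : Ext K d G B => Nonempty (L.1 ≃ₐ[K] L'.1))

section

variable {n : ℕ}

/-- A set meeting all orbits has at least as many elements as there are orbits. -/
theorem card_le (g : Equiv.Perm (Fin n)) (R : Finset (Fin n))
    (h : ∀ z, ∃ r ∈ R, g.SameCycle r z) :
    Nat.card (Quotient (Equiv.Perm.SameCycle.setoid g)) ≤ R.card := by
  classical
  have hs : Function.Surjective
      (fun r : R => (Quotient.mk (Equiv.Perm.SameCycle.setoid g) (r : Fin n))) := by
    intro q
    induction q using Quotient.inductionOn with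
    | _ z =>
      obtain ⟨r, hr, h1⟩ := h z
      exact ⟨⟨r, hr⟩, Quotient.sound h1⟩
  have := Nat.card_le_card_of_surjective _ hs
  simpa using this

theorem ind_pos {g : Equiv.Perm (Fin n)} (hg : g ≠ 1) : 1 ≤ ind g := by
  classical
  obtain ⟨x, hx⟩ : ∃ x, g x ≠ x := by
    by_contra h
    push Not at h
    exact hg (Equiv.ext h)
  have h1 := card_le g (Finset.univ.erase (g x)) (fun z => by
    by_cases hz : z = g x
    · exact ⟨x, by simp [Ne.symm hx], by rw [hz]; exact ⟨1, by simp⟩⟩
    · exact ⟨z, by simp [hz], Equiv.Perm.SameCycle.refl _ _⟩)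
  rw [Finset.card_erase_of_mem (Finset.mem_univ _), Finset.card_univ, Fintype.card_fin] at h1
  have : 0 < n := x.pos
  unfold ind
  omega

theorem ind_two {g : Equiv.Perm (Fin n)} (hg : g ≠ 1) (hs : ¬ g.IsSwap) : 2 ≤ ind g := by
  classical
  obtain ⟨x, hx⟩ : ∃ x, g x ≠ x := by
    by_contra h
    push Not at h
    exact hg (Equiv.ext h)
  have key : ∃ q, q ≠ g x ∧ (∃ r, r ≠ g x ∧ r ≠ q ∧ g.SameCycle r q) ∧
      (x ≠ q) := by
    by_cases h1 : g (g x) = x
    · have h2 : g ≠ Equiv.swap x (g x) := fun h => hs ⟨x, g x, Ne.symm hx, h⟩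
      obtain ⟨z, hz⟩ : ∃ z, g z ≠ Equiv.swap x (g x) z := by
        by_contra h
        push Not at h
        exact h2 (Equiv.ext h)
      have hz1 : z ≠ x := by
        rintro rfl
        exact hz (by rw [Equiv.swap_apply_left])
      have hz2 : z ≠ g x := by
        rintro rfl
        exact hz (by rw [Equiv.swap_apply_right, h1])
      rw [Equiv.swap_apply_of_ne_of_ne hz1 hz2] at hz
      refine ⟨g z, fun h => hz1 (g.injective h), ⟨z, hz2, Ne.symm hz, ⟨1, by simp⟩⟩, fun h => ?_⟩
      apply hz2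
      apply g.injective
      rw [h1, ← h]
    · refine ⟨g (g x), fun h => hx (g.injective h), ⟨x, Ne.symm hx, Ne.symm h1, ⟨2, ?_⟩⟩, Ne.symm h1⟩
      rfl
  obtain ⟨q, hq1, ⟨r, hr1, hr2, hr3⟩, hq2⟩ := key
  have h1 := card_le g ((Finset.univ.erase (g x)).erase q) (fun z => by
    by_cases hz : z = g x
    · exact ⟨x, by simp [Ne.symm hx, hq2], by rw [hz]; exact ⟨1, by simp⟩⟩
    · by_cases hz2 : z = q
      · exact ⟨r, by simp [hr1, hr2], by rw [hz2]; exact hr3⟩
      · exact ⟨z, by simp [hz, hz2], Equiv.Perm.SameCycle.refl _ _⟩)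
  rw [Finset.card_erase_of_mem (by simp [hq1]), Finset.card_erase_of_mem (Finset.mem_univ _),
    Finset.card_univ, Fintype.card_fin] at h1
  have h3 : 2 ≤ n := by
    have := Fintype.card_fin n
    have h4 : ({g x, q} : Finset (Fin n)).card ≤ Fintype.card (Fin n) := Finset.card_le_univ _
    rw [Finset.card_pair (Ne.symm hq1), this] at h4
    exact h4
  unfold ind
  omega

theorem ind_swap {a b : Fin n} (hab : a ≠ b) : ind (Equiv.swap a b) = 1 := by
  classical
  have hne : Equiv.swap a b ≠ 1 := fun h => hab (by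
    have := congrArg (fun σ : Equiv.Perm (Fin n) => σ b) h
    simpa using this)
  have h1 := ind_pos hne
  -- at least `n - 1` orbits
  have hinj : Function.Injective (fun z : {z : Fin n // z ≠ b} =>
      (Quotient.mk (Equiv.Perm.SameCycle.setoid (Equiv.swap a b)) (z : Fin n))) := by
    rintro ⟨y, hy⟩ ⟨z, hz⟩ h
    have h2 : (Equiv.swap a b).SameCycle y z := Quotient.exact h
    obtain ⟨i, hi⟩ := h2
    have h3 : ∀ i : ℤ, (Equiv.swap a b) ^ i = 1 ∨ (Equiv.swap a b) ^ i = Equiv.swap a b := by
      intro i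
      have h4 : (Equiv.swap a b) ^ (2 : ℤ) = 1 := by
        rw [zpow_two, Equiv.swap_mul_self]
      rcases Int.even_or_odd' i with ⟨k, rfl | rfl⟩
      · left; rw [zpow_mul, h4, one_zpow]
      · right; rw [zpow_add, zpow_mul, h4, one_zpow, one_mul, zpow_one]
    apply Subtype.ext
    change y = z
    rcases h3 i with h4 | h4
    · rw [h4] at hi; exact hi
    · rw [h4] at hi
      by_cases hya : y = a
      · rw [hya, Equiv.swap_apply_left] at hi
        exact absurd hi.symm hz
      · rw [Equiv.swap_apply_of_ne_of_ne hya hy] at hi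
        exact hi
  have h2 := Nat.card_le_card_of_injective _ hinj
  have h3 : Nat.card {z : Fin n // z ≠ b} = n - 1 := by
    rw [Nat.card_eq_fintype_card, Fintype.card_subtype_compl, Fintype.card_fin]
    simp
  rw [h3] at h2
  unfold ind at h1 ⊢
  omega

end

section wr

variable {n : ℕ} {H P : Type} [Group H] [MulAction H P] [Nonempty P]
  (ht : ∀ x y : P, ∃ h : H, h • x = y)
  {G : Subgroup (Equiv.Perm (Fin n))} {f : Fin n ≃ P × Bool}
  (hf : ∀ π : Equiv.Perm (Fin n), π ∈ G ↔ ∃ h : H, ∀ i, (f (π i)).1 = h • (f i).1)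

include hf in
theorem swap_mem {a b : Fin n} (h : (f a).1 = (f b).1) : Equiv.swap a b ∈ G := by
  rw [hf]
  refine ⟨1, fun i => ?_⟩
  rw [one_smul]
  by_cases h1 : i = a
  · rw [h1, Equiv.swap_apply_left, h]
  · by_cases h3 : i = b
    · rw [h3, Equiv.swap_apply_right, h]
    · rw [Equiv.swap_apply_of_ne_of_ne h1 h3]

include hf in
theorem of_swap_mem {a b : Fin n} (hab : a ≠ b) (h : Equiv.swap a b ∈ G) : (f a).1 = (f b).1 := by
  classical
  obtain ⟨x, hx⟩ := (hf _).1 h
  by_contra hne
  -- the partner of `a`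
  set c : Fin n := f.symm ((f a).1, !(f a).2) with hc
  have hfc : f c = ((f a).1, !(f a).2) := by rw [hc, Equiv.apply_symm_apply]
  have h1 : c ≠ a := by
    intro h3
    rw [h3] at hfc
    have := congrArg Prod.snd hfc
    simp at this
  have h2 : c ≠ b := by
    intro h3
    rw [h3] at hfc
    exact hne (congrArg Prod.fst hfc).symm
  have h3 := hx c
  rw [Equiv.swap_apply_of_ne_of_ne h1 h2, hfc] at h3
  have h5 := hx a
  rw [Equiv.swap_apply_left] at h5
  exact hne (by rw [h5]; exact h3)

include hf ht in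
theorem swap_conj {a b c d : Fin n} (hab : a ≠ b) (hcd : c ≠ d) (h : (f a).1 = (f b).1)
    (h' : (f c).1 = (f d).1) : ∃ ρ ∈ G, Equiv.swap c d = ρ * Equiv.swap a b * ρ⁻¹ := by
  classical
  have ha2 : (f a).2 ≠ (f b).2 := fun e => hab (f.injective (Prod.ext h e))
  have hc2 : (f c).2 ≠ (f d).2 := fun e => hcd (f.injective (Prod.ext h' e))
  obtain ⟨g, hg⟩ := ht (f a).1 (f c).1
  let t : Equiv.Perm (P × Bool) := (MulAction.toPerm g).prodCongr (Equiv.refl Bool)
  let ρ : Equiv.Perm (Fin n) := (f.trans t).trans f.symm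
  have hρ : ∀ z, f (ρ z) = (g • (f z).1, (f z).2) := fun z => by
    change f (f.symm (t (f z))) = _
    rw [f.apply_symm_apply]
    rfl
  refine ⟨ρ, (hf _).2 ⟨g, fun i => by rw [hρ]⟩, ?_⟩
  rw [← Equiv.swap_apply_apply]
  have ea : f (ρ a) = ((f c).1, (f a).2) := by rw [hρ, hg]
  have eb : f (ρ b) = ((f c).1, (f b).2) := by rw [hρ, ← h, hg]
  by_cases hs : (f a).2 = (f c).2
  · have h1 : ρ a = c := f.injective (by rw [ea]; exact Prod.ext rfl hs)
    have h3 : ρ b = d := f.injective (by
      rw [eb]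
      refine Prod.ext h' ?_
      change (f b).2 = (f d).2
      revert ha2 hc2 hs
      cases (f a).2 <;> cases (f b).2 <;> cases (f c).2 <;> cases (f d).2 <;> simp)
    rw [h1, h3]
  · have h1 : ρ a = d := f.injective (by
      rw [ea]
      refine Prod.ext h' ?_
      change (f a).2 = (f d).2
      revert ha2 hc2 hs
      cases (f a).2 <;> cases (f b).2 <;> cases (f c).2 <;> cases (f d).2 <;> simp)
    have h3 : ρ b = c := f.injective (by
      rw [eb]
      refine Prod.ext rfl ?_
      change (f b).2 = (f c).2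
      revert ha2 hc2 hs
      cases (f a).2 <;> cases (f b).2 <;> cases (f c).2 <;> cases (f d).2 <;> simp)
    rw [h1, h3, Equiv.swap_comm]

omit [Group H] [MulAction H P] in
theorem exists_pair (f : Fin n ≃ P × Bool) : ∃ a b : Fin n, a ≠ b ∧ (f a).1 = (f b).1 := by
  obtain ⟨x⟩ := ‹Nonempty P›
  refine ⟨f.symm (x, false), f.symm (x, true), fun h => ?_, by simp⟩
  have := f.symm.injective h
  simp at this

include hf in
theorem minInd_eq : minInd G = 1 := by
  obtain ⟨a, b, hab, h⟩ := exists_pair f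
  have h1 : (1 : ℕ) ∈ {i | ∃ g ∈ G, g ≠ 1 ∧ ind g = i} := ⟨Equiv.swap a b, swap_mem hf h,
    fun h3 => hab (by
      have := congrArg (fun σ : Equiv.Perm (Fin n) => σ b) h3
      simpa using this), ind_swap hab⟩
  apply le_antisymm (Nat.sInf_le h1)
  obtain ⟨g, -, hg, hi⟩ := Nat.sInf_mem (⟨1, h1⟩ : {i | ∃ g ∈ G, g ≠ 1 ∧ ind g = i}.Nonempty)
  change 1 ≤ sInf _
  rw [← hi]
  exact ind_pos hg

include hf ht in
theorem beta_eq (K : Type) [Field K] : beta K G = 1 := by
  classical
  obtain ⟨a, b, hab, h⟩ := exists_pair f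
  have hm := minInd_eq hf
  unfold beta
  rw [Nat.card_eq_one_iff_unique]
  have hsw : ∀ g : {g : G // (g : Equiv.Perm (Fin n)) ≠ 1 ∧
      ind (g : Equiv.Perm (Fin n)) = minInd G}, ∃ c d : Fin n, c ≠ d ∧ (f c).1 = (f d).1 ∧
        ((g : G) : Equiv.Perm (Fin n)) = Equiv.swap c d := by
    rintro ⟨⟨g, hg⟩, h1, h3⟩
    have h4 : g.IsSwap := by
      by_contra h5
      have h6 : 2 ≤ ind g := ind_two h1 h5
      rw [hm] at h3
      change ind g = 1 at h3
      omega
    obtain ⟨c, d, hcd, rfl⟩ := h4
    exact ⟨c, d, hcd, of_swap_mem hf hcd hg, rfl⟩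
  refine ⟨⟨?_⟩, ⟨Quot.mk _ ⟨⟨Equiv.swap a b, swap_mem hf h⟩, ?_, ?_⟩⟩⟩
  · intro p q
    induction p using Quot.inductionOn with
    | _ g =>
      induction q using Quot.inductionOn with
      | _ g' =>
        apply Quot.sound
        obtain ⟨c, d, hcd, e1, e2⟩ := hsw g
        obtain ⟨c', d', hcd', e1', e2'⟩ := hsw g'
        obtain ⟨ρ, hρ, e⟩ := swap_conj ht hf hcd hcd' e1 e1'
        refine ⟨1, 1, fun ζ _ => by simp, ⟨ρ, hρ⟩, Subtype.ext ?_⟩
        rw [e2']
        simp only [pow_one, Subgroup.coe_mul, Subgroup.coe_inv]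
        rw [e2, e]
  · intro h3
    exact hab (by
      have := congrArg (fun σ : Equiv.Perm (Fin n) => σ b) h3
      simpa using this)
  · rw [hm]
    exact ind_swap hab

end wr

/-- The action of `H` on `P` is transitive and faithful, and there is a subgroup `U` of `H` containing no
normal subgroup except `1`, of index `q`, such that `8 q (q + 1) ≤ |P|` and `U` contains the stabilizer of
a point of `P`, or `8 log₂ |H| q (q + 1) ≤ |P|` (`log₂` rounded down). -/
structure Large (H P : Type) [Group H] [MulAction H P] : Prop where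
  transitive : ∀ x y : P, ∃ h : H, h • x = y
  faithful : ∀ h : H, (∀ x : P, h • x = x) → h = 1
  large : ∃ U : Subgroup H, U.normalCore = ⊥ ∧
    ((8 * U.index * (U.index + 1) ≤ Nat.card P ∧ ∃ x : P, MulAction.stabilizer H x ≤ U) ∨
      8 * Nat.log 2 (Nat.card H) * U.index * (U.index + 1) ≤ Nat.card P)

/-- The group `C₂ ≀ H` exists, and is transitive. -/
def Exists (H P : Type) [Group H] [MulAction H P] : Prop :=
  ∃ (d : ℕ) (G : Subgroup (Equiv.Perm (Fin d))),
    d = 2 * Nat.card P ∧ IsC2Wreath H P G ∧ ∀ i j : Fin d, ∃ g ∈ G, g i = j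

theorem exists_group (H P : Type) [Group H] [MulAction H P] [Finite P]
    (ht : ∀ x y : P, ∃ h : H, h • x = y) : Exists H P := by
  have hcard : Nat.card (P × Bool) = 2 * Nat.card P := by
    rw [Nat.card_prod, mul_comm]
    simp
  let f : Fin (2 * Nat.card P) ≃ P × Bool := (Finite.equivFinOfCardEq hcard).symm
  let G : Subgroup (Equiv.Perm (Fin (2 * Nat.card P))) :=
    { carrier := {π | ∃ h : H, ∀ i, (f (π i)).1 = h • (f i).1}
      one_mem' := ⟨1, fun i => by simp⟩
      mul_mem' := by
        rintro π ρ ⟨h, hh⟩ ⟨h', hh'⟩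
        refine ⟨h * h', fun i => ?_⟩
        rw [Equiv.Perm.mul_apply, hh, hh', mul_smul]
      inv_mem' := by
        rintro π ⟨h, hh⟩
        refine ⟨h⁻¹, fun i => ?_⟩
        have h1 := hh (π⁻¹ i)
        rw [show π (π⁻¹ i) = i from π.apply_symm_apply i] at h1
        rw [h1, inv_smul_smul] }
  refine ⟨2 * Nat.card P, G, rfl, ⟨f, fun π => Iff.rfl⟩, fun i j => ?_⟩
  obtain ⟨h, hh⟩ := ht (f i).1 (f j).1
  let t : Equiv.Perm (P × Bool) := (MulAction.toPerm h).prodCongr (Equiv.swap (f i).2 (f j).2)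
  refine ⟨f.trans (t.trans f.symm), ⟨h, fun x => ?_⟩, ?_⟩
  · simp [t]
  · change f.symm (t (f i)) = j
    rw [Equiv.symm_apply_eq]
    exact Prod.ext (by simp [t, hh]) (by simp [t])

/-- Malle's asymptotic formula over all number fields which contain a suitable number field: there is a
number field `K₀` such that for every number field `K` containing `K₀` there is `C > 0` with
`N(K, G; B) ~ C B ^ (1 / ind G) (log B) ^ (β_K(G) - 1)`. -/
def MalleLarge (d : ℕ) (G : Subgroup (Equiv.Perm (Fin d))) : Prop :=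
  ∃ (K₀ : Type) (_ : Field K₀) (_ : NumberField K₀), ∀ (K : Type) [Field K] [NumberField K]
    [Algebra K₀ K], ∃ C : ℝ, 0 < C ∧ Tendsto (fun B : ℝ => (N K d G B : ℝ) /
      (B ^ (1 / (minInd G : ℝ)) * Real.log B ^ (beta K G - 1))) atTop (nhds C)

theorem malleLarge (H P : Type) [Group H] [Finite H] [MulAction H P] [Finite P] [Nonempty P]
    (hL : Large H P) (d : ℕ) (G : Subgroup (Equiv.Perm (Fin d))) (hG : IsC2Wreath H P G) :
    MalleLarge d G := by
  have i1 : MulAction.IsPretransitive H P := ⟨hL.transitive⟩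
  have i3 : FaithfulSMul H P := ⟨fun {g h} hgh => by
    have := hL.faithful (h⁻¹ * g) (fun x => by rw [mul_smul, hgh x, inv_smul_smul])
    exact (inv_mul_eq_one.1 this).symm⟩
  obtain ⟨K₀, i4, i5, hK₀⟩ := Pool.Agent.U880.MB.exists_base H
  refine ⟨K₀, i4, i5, fun K _ _ _ => ?_⟩
  obtain ⟨c, hc0, hlim⟩ :=
    Pool.Agent.U737.MN.asymp_iso Pool.Agent.U737.MN.inp K H P hL.large (hK₀ K) G hG
  refine ⟨c, hc0, ?_⟩
  obtain ⟨f, hf⟩ := hG
  rw [minInd_eq hf, beta_eq hL.transitive hf K]
  have hlim' : Tendsto (fun B : ℝ => (N K d G B : ℝ) / B) atTop (nhds c) := hlim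
  simpa using hlim'

/-- The general theorem. -/
def General : Prop :=
  ∀ (H P : Type) [Group H] [Finite H] [MulAction H P] [Finite P] [Nonempty P], Large H P →
    Exists H P ∧ ∀ (d : ℕ) (G : Subgroup (Equiv.Perm (Fin d))), IsC2Wreath H P G →
      MalleLarge d G ∧ minInd G = 1 ∧ ∀ (K : Type) [Field K], beta K G = 1

/-- Examples with any finite group `A` as a factor of `H = A × S_m`: all transitive faithful actions of
degree at least `8 log₂ (|A| m!) |A| m (|A| m + 1)`. -/
def Products : Prop :=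
  ∀ (A : Type) [Group A] [Finite A] (m : ℕ), 1 ≤ m →
    ∀ (P : Type) [MulAction (A × Equiv.Perm (Fin m)) P] [Finite P] [Nonempty P],
      (∀ x y : P, ∃ h : A × Equiv.Perm (Fin m), h • x = y) →
      (∀ h : A × Equiv.Perm (Fin m), (∀ x : P, h • x = x) → h = 1) →
      8 * Nat.log 2 (Nat.card A * m.factorial) * (Nat.card A * m) * (Nat.card A * m + 1) ≤
        Nat.card P → Large (A × Equiv.Perm (Fin m)) P

end Pool.Agent.Results.MP_b39724_nt.LargeActions

open Pool.Agent.Results.MP_b39724_nt.LargeActions in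
theorem Pool.Agent.Results.MP_b39724_nt.LargeActions.products : Products := by
  intro A _ _ m hm P _ _ _ ht hfa h
  refine ⟨ht, hfa, ?_⟩
  have : Nonempty (Fin m) := ⟨⟨0, by omega⟩⟩
  letI := Pool.Agent.U737.MN.prodAct A m
  have i1 : MulAction.IsPretransitive (A × Equiv.Perm (Fin m)) (A × Fin m) :=
    ⟨Pool.Agent.U737.MN.prod_trans A m⟩
  have i2 : FaithfulSMul (A × Equiv.Perm (Fin m)) (A × Fin m) := ⟨fun {g h} hgh => by
    have := Pool.Agent.U737.MN.prod_faithful A m (by omega) (h⁻¹ * g)
      (fun x => by rw [mul_smul, hgh x, inv_smul_smul])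
    exact (inv_mul_eq_one.1 this).symm⟩
  refine Pool.Agent.U737.MN.largeAct_of (Q := A × Fin m) (Or.inr ?_)
  rw [Nat.card_prod, Nat.card_prod, Nat.card_fin, Nat.card_perm, Nat.card_fin]
  exact h

open Pool.Agent.Results.MP_b39724_nt.LargeActions in
/-- Malle's asymptotic formula over all sufficiently large number fields for `C₂ ≀ H`, `H` any finite
group in any transitive faithful action on a set `P` of large degree. -/
theorem Pool.Agent.Results.MP_b39724_nt.LargeActions.result : General ∧ Products := by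
  refine ⟨fun H P _ _ _ _ _ hL => ⟨exists_group H P hL.transitive, fun d G hG =>
    ⟨malleLarge H P hL d G hG, ?_⟩⟩, products⟩
  obtain ⟨f, hf⟩ := hG
  exact ⟨minInd_eq hf, fun K _ => beta_eq hL.transitive hf K⟩
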