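import Pool.Agent.U880.ET.Low
import Pool.Agent.Results.MP_b39724_nt.LargeActions

/-!
# The lower half of Malle's formula over all large fields for `C₂ ≀ W`, and what Malle's formula for `C₂ ≀ W`
says about the fields with group `W`

Let `H ≤ S_m` be ANY transitive group (no condition on its action, and nothing is assumed about its
realizations). There is ONE number field `K₀` such that for all number fields `K` containing `K₀`, for all
`W` in the tower `H`, `C₂ ≀ H`, `C₂ ≀ (C₂ ≀ H)`, … and `G = C₂ ≀ W`, the number of the fields satisfies the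
lower half of the formula of the problem: `N(K, G; B) ≥ c B ^ (1 / ind G) (log B) ^ (β_K(G) - 1)`, `c > 0`.

Conversely, over an arbitrary number field `K`: for every field `M` with group `W ≤ S_k` over `K` let `δ_M > 0` be
the limit of the number of the quadratic extensions `L` of `M` with `|d_L| ≤ B |d_K| ^ (2 k)`, divided by `B`.
Then `liminf N(K, G; B) / B ≥ (1 / k) ∑_M δ_M`, and if `N(K, G; B) ≤ C B` holds for arbitrarily large `B`, then the
series `∑_M δ_M` converges, and its sum is at most `k C`. So the formula for `G = C₂ ≀ W` over `K` implies that there are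
few fields `M` with group `W` over `K`, and if the series diverges for some `W` over arbitrarily large `K`,
then the answer to the question is negative.

The asymptotic formula itself is known to us (`LargeFieldWreaths`, `LargeActions`) only for actions of large
degree, where the fields `M` are known to be few. Proofs: for fixed `M` the library of helper737 and
coauthors (`Pool/Agent/U737/MN`, after `TH444/ML`); fields `L` over different `M` are different
(`MidUnique`); the theorem of Hermite; `K₀` from `Pool/Agent/U880/MB`.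
-/

set_option autoImplicit false
set_option linter.all false

open Filter Topology

namespace Pool.Agent.Results.MP_b39724_nt.EveryGroupTowers

open Pool.Agent.Results.MP_b39724_nt (LargeActions.minInd_eq LargeActions.beta_eq)
open Pool.Agent.Results.MP_b39724_nt.LargeActions (minInd beta IsC2Wreath Ext N)

/-- `H` is transitive -/
def Transitive {m : ℕ} (H : Subgroup (Equiv.Perm (Fin m))) : Prop := ∀ i j : Fin m, ∃ h ∈ H, h i = j

/-- The groups `H`, `C₂ ≀ H`, `C₂ ≀ (C₂ ≀ H)`, …, as permutation groups: `W ≤ S_k` acts on the `k` points, and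
`C₂ ≀ W` acts on `2 k` points. -/
inductive Tower {m : ℕ} (H : Subgroup (Equiv.Perm (Fin m))) : (k : ℕ) → Subgroup (Equiv.Perm (Fin k)) → Prop
  | base : Tower H m H
  | step {k d : ℕ} {W : Subgroup (Equiv.Perm (Fin k))} {G : Subgroup (Equiv.Perm (Fin d))} :
      Tower H k W → IsC2Wreath W (Fin k) G → Tower H d G

/-- The lower half of Malle's formula: `N(K, G; B) ≥ c B ^ (1 / ind G) (log B) ^ (β_K(G) - 1)` for all large
`B`, with `c > 0`. -/
def LowerHalf (K : Type) [Field K] [NumberField K] (d : ℕ) (G : Subgroup (Equiv.Perm (Fin d))) : Prop :=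
  ∃ c : ℝ, 0 < c ∧ ∃ B₀ : ℝ, ∀ B : ℝ, B₀ ≤ B →
    c * (B ^ (1 / (minInd G : ℝ)) * Real.log B ^ (beta K G - 1)) ≤ (N K d G B : ℝ)

/-- The fields `M` between `K` and its algebraic closure, of degree `k` over `K`, whose Galois group, acting on
the embeddings, is `W` (up to numbering). -/
def Fields (K : Type) [Field K] {k : ℕ} (W : Subgroup (Equiv.Perm (Fin k))) :
    Set (IntermediateField K (AlgebraicClosure K)) :=
  {M | Module.finrank K M = k ∧
    ∃ e : (M →ₐ[K] AlgebraicClosure K) ≃ Fin k, ∀ π : Equiv.Perm (Fin k),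
      π ∈ W ↔ ∃ σ : AlgebraicClosure K ≃ₐ[K] AlgebraicClosure K,
        ∀ φ : M →ₐ[K] AlgebraicClosure K, e (σ.toAlgHom.comp φ) = π (e φ)}

/-- The quadratic extensions `L` of `M` with `|d_L| ≤ B |d_K| ^ d`. -/
def Quadratic (K : Type) [Field K] [NumberField K] (d : ℕ) (M : IntermediateField K (AlgebraicClosure K))
    (B : ℝ) : Set (IntermediateField K (AlgebraicClosure K)) :=
  {L | M ≤ L ∧ Module.finrank K L = 2 * Module.finrank K M ∧
    ∃ h : NumberField L, ((|@NumberField.discr L _ h| : ℤ) : ℝ) ≤ B * ((|NumberField.discr K| : ℤ) : ℝ) ^ d}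

section proof

open Pool.Agent.U880.ET
open Pool.Agent.TH444.ML (dsc Cnt HasGp nf_of_fd dsc_eq)
open Pool.Agent.U737.MN (Gal TT SM IsC2Wr)

theorem mem_iff {K : Type} [Field K] {k : ℕ} (hk : 0 < k) {W : Subgroup (Equiv.Perm (Fin k))}
    {M : IntermediateField K (AlgebraicClosure K)} [CharZero K] :
    M ∈ Fields K W ↔ M ∈ Gal K (AlgebraicClosure K) W (Fin k) := by
  rw [mem_gal]
  constructor
  · rintro ⟨h1, h2⟩
    exact ⟨FiniteDimensional.of_finrank_pos (by omega), h2⟩
  · rintro ⟨h1, e, he⟩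
    refine ⟨?_, e, he⟩
    rw [← AlgHom.card K M (AlgebraicClosure K)]
    simpa using Fintype.card_congr e

theorem fields_eq {K : Type} [Field K] {k : ℕ} (hk : 0 < k) (W : Subgroup (Equiv.Perm (Fin k)))
    [CharZero K] : Fields K W = Gal K (AlgebraicClosure K) W (Fin k) :=
  Set.ext fun _ => mem_iff hk

theorem deg {k d : ℕ} {W : Subgroup (Equiv.Perm (Fin k))} {G : Subgroup (Equiv.Perm (Fin d))}
    (hG : IsC2Wreath W (Fin k) G) : d = 2 * k := by
  have := Pool.Agent.U737.MN.c2wr_n hG
  simpa using this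

theorem trans_wr {k d : ℕ} {W : Subgroup (Equiv.Perm (Fin k))} {G : Subgroup (Equiv.Perm (Fin d))}
    (hW : Transitive W) (hG : IsC2Wreath W (Fin k) G) : Transitive G := by
  obtain ⟨f, hf⟩ := hG
  intro i j
  obtain ⟨w, hw, hwi⟩ := hW (f i).1 (f j).1
  let t : Equiv.Perm (Fin k × Bool) := w.prodCongr (Equiv.swap (f i).2 (f j).2)
  refine ⟨f.trans (t.trans f.symm), (hf _).2 ⟨⟨w, hw⟩, fun x => ?_⟩, ?_⟩
  · simp only [t, Equiv.trans_apply, Equiv.apply_symm_apply]
    rfl
  · change f.symm (t (f i)) = j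
    rw [Equiv.symm_apply_eq]
    exact Prod.ext (by simp [t, hwi]) (by simp [t])

theorem consts (K : Type) [Field K] {k d : ℕ} (hk : 0 < k) {W : Subgroup (Equiv.Perm (Fin k))}
    {G : Subgroup (Equiv.Perm (Fin d))} (hW : Transitive W) (hG : IsC2Wreath W (Fin k) G) :
    minInd G = 1 ∧ beta K G = 1 := by
  have : Nonempty (Fin k) := ⟨⟨0, hk⟩⟩
  have ht : ∀ x y : Fin k, ∃ h : W, h • x = y := fun x y => by
    obtain ⟨w, hw, h⟩ := hW x y
    exact ⟨⟨w, hw⟩, h⟩
  obtain ⟨f, hf⟩ := hG
  exact ⟨LargeActions.minInd_eq hf, LargeActions.beta_eq ht hf K⟩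

theorem lower (K : Type) [Field K] [NumberField K] {k d : ℕ} (hk : 0 < k)
    {W : Subgroup (Equiv.Perm (Fin k))} {G : Subgroup (Equiv.Perm (Fin d))} (hW : Transitive W)
    (hO : Occ K W) (hG : IsC2Wreath W (Fin k) G) : LowerHalf K d G := by
  obtain ⟨h1, h2⟩ := consts K hk hW hG
  have hd := deg hG
  obtain ⟨c, hc, B₀, h⟩ := low_two' K hk hW hO hG
  have hd0 : (0 : ℝ) < d := by
    have : 0 < d := by omega
    exact_mod_cast this
  refine ⟨c / d, by positivity, B₀, fun B hB => ?_⟩
  rw [h1, h2]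
  have h3 := h B hB
  have h4 := cnt_le (Cnt K G B) d (by omega) (fun L hL => hL.1) (cnt_finite K (by omega) G B)
  have h5 : ((Cnt K G B).ncard : ℝ) ≤ d * (N K d G B : ℝ) := by
    exact_mod_cast h4
  have h6 : c * B ≤ d * (N K d G B : ℝ) := h3.trans h5
  have e : c / d * (B ^ (1 / ((1 : ℕ) : ℝ)) * Real.log B ^ (1 - 1)) = c * B / d := by
    norm_num
    ring
  rw [e, div_le_iff₀ hd0]
  linarith

theorem tower {K : Type} [Field K] [NumberField K] {m : ℕ} (hm : 0 < m)
    {H : Subgroup (Equiv.Perm (Fin m))} (hH : Transitive H) (hO : Occ K H) {k : ℕ}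
    {W : Subgroup (Equiv.Perm (Fin k))} (h : Tower H k W) : 0 < k ∧ Transitive W ∧ Occ K W := by
  induction h with
  | base => exact ⟨hm, hH, hO⟩
  | @step k d W G _ hG ih =>
    obtain ⟨h1, h2, h3⟩ := ih
    have hd := deg hG
    refine ⟨by omega, trans_wr h2 hG, ?_⟩
    obtain ⟨c, hc, h⟩ := low_two' K h1 h2 h3 hG
    exact occ_of (by omega) hc h

theorem quad_eq (K : Type) [Field K] [NumberField K] (d : ℕ) (M : IntermediateField K (AlgebraicClosure K))
    (hM : FiniteDimensional K M) (B : ℝ) : Quadratic K d M B = {L | M ≤ L ∧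
      Module.finrank K L = 2 * Module.finrank K M ∧
        dsc L ≤ B * ((|NumberField.discr K| : ℤ) : ℝ) ^ d} := by
  have hpos : 0 < Module.finrank K M := Module.finrank_pos
  ext L
  constructor
  · rintro ⟨h1, h2, h3, h4⟩
    exact ⟨h1, h2, by rw [dsc_eq L]; exact h4⟩
  · rintro ⟨h1, h2, h3⟩
    have hfd : FiniteDimensional K L := FiniteDimensional.of_finrank_pos (by omega)
    have hnf : NumberField L := nf_of_fd L
    rw [dsc_eq L] at h3
    exact ⟨h1, h2, hnf, h3⟩

end proof

/-- **Theorem.** (1) For every transitive `H ≤ S_m` there is a number field `K₀` such that for all number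
fields `K` containing `K₀`, for all `W` in the tower over `H` and all `G = C₂ ≀ W` the lower half of Malle's formula
holds; such `G` exist, they are transitive, and `ind G = β_K(G) = 1`. (2) For every number field `K`, every
transitive `W ≤ S_k` and `G = C₂ ≀ W`: the numbers of the quadratic extensions of the fields `M` with group `W`
have positive densities `δ M`; the lower limit of `N(K, G; B) / B` is at least `(1 / k) ∑_M δ_M` (for every
finite partial sum); if `N(K, G; B) ≤ C B` for arbitrarily large `B`, then the series converges, with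
sum at most `k C`. -/
theorem result :
    (∀ (m : ℕ) (H : Subgroup (Equiv.Perm (Fin m))), 1 ≤ m → Transitive H →
      ∃ (K₀ : Type) (_ : Field K₀) (_ : NumberField K₀), ∀ (K : Type) [Field K] [NumberField K]
        [Algebra K₀ K] (k : ℕ) (W : Subgroup (Equiv.Perm (Fin k))), Tower H k W →
          (Fields K W).Nonempty ∧
          (∃ G : Subgroup (Equiv.Perm (Fin (2 * k))), IsC2Wreath W (Fin k) G) ∧
          ∀ (d : ℕ) (G : Subgroup (Equiv.Perm (Fin d))), IsC2Wreath W (Fin k) G →
            Transitive G ∧ minInd G = 1 ∧ beta K G = 1 ∧ LowerHalf K d G) ∧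
    ∀ (K : Type) [Field K] [NumberField K] (k : ℕ) (W : Subgroup (Equiv.Perm (Fin k))), 1 ≤ k →
      Transitive W → ∀ (d : ℕ) (G : Subgroup (Equiv.Perm (Fin d))), IsC2Wreath W (Fin k) G →
        ∃ δ : Fields K W → ℝ,
          (∀ M : Fields K W, 0 < δ M ∧ Tendsto (fun B : ℝ => ((Quadratic K d M.1 B).ncard : ℝ) / B)
            atTop (𝓝 (δ M))) ∧
          (∀ (F : Finset (Fields K W)) (a : ℝ), a < (∑ M ∈ F, δ M) / k →
            ∀ᶠ B : ℝ in atTop, a * B ≤ (N K d G B : ℝ)) ∧
          ∀ C : ℝ, (∃ᶠ B : ℝ in atTop, (N K d G B : ℝ) ≤ C * B) →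
            Summable δ ∧ ∑' M, δ M ≤ k * C := by
  constructor
  · intro m H hm hH
    obtain ⟨K₀, i1, i2, h⟩ := Pool.Agent.U880.ET.base_field hm H hH
    refine ⟨K₀, i1, i2, fun K _ _ _ k W hW => ?_⟩
    obtain ⟨h1, h2, h3⟩ := tower hm hH (h K) hW
    refine ⟨?_, ?_, fun d G hG => ⟨trans_wr h2 hG, (consts K h1 h2 hG).1, (consts K h1 h2 hG).2,
      lower K h1 h2 h3 hG⟩⟩
    · obtain ⟨M, hM⟩ := h3
      exact ⟨M, (mem_iff h1).2 (Pool.Agent.U880.ET.mem_gal.2 hM)⟩
    · obtain ⟨d, G, hd, hG, -⟩ := LargeActions.exists_group W (Fin k) (fun x y => by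
        obtain ⟨w, hw, h⟩ := h2 x y
        exact ⟨⟨w, hw⟩, h⟩)
      rw [Nat.card_fin] at hd
      subst hd
      exact ⟨G, hG⟩
  · intro K _ _ k W hk hW d G hG
    have i1 := Pool.Agent.U880.ET.transitive_inst hW
    have i2 : Nonempty (Fin k) := ⟨⟨0, hk⟩⟩
    rw [fields_eq hk W]
    choose δ hδ using fun M : Pool.Agent.U737.MN.Gal K (AlgebraicClosure K) W (Fin k) =>
      Pool.Agent.U880.ET.lim_AS M.1 M.2 (((|NumberField.discr K| : ℤ) : ℝ) ^ d)
        (Pool.Agent.U880.ET.disc_pos K d)
    obtain ⟨h1, h2⟩ := Pool.Agent.U880.ET.final K W (Fin k) G hG δ fun M => ⟨(hδ M).1, (hδ M).2.1⟩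
    rw [Nat.card_fin] at h1 h2
    refine ⟨δ, fun M => ⟨(hδ M).1, ?_⟩, h1, h2⟩
    refine (hδ M).2.2.congr fun B => ?_
    rw [quad_eq K d M.1 M.2.1 B]

end Pool.Agent.Results.MP_b39724_nt.EveryGroupTowers
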