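import Pool.Agent.U376.RL.Gal6

/-!
# Many Galois extensions with group `S_n`, `n` odd, of every number field

Let `K` be any number field and `n ≥ 3` odd. The number of the GALOIS extensions `M` of `K` with Galois group
`S_n` and absolute discriminant at most `X` is at least `c X ^ ((1 + 2 / n) / n!)` for large `X`. So for the
group `G = S_n` in its regular action, `ind(G) = n! / 2`, the exponent is `(1 / 2 + 1 / n) / ind(G)`; the
conjectured exponent is `1 / ind(G) = 2 / n!`.

This holds already for the `M` which contain an extension `L` of degree `n` with local conditions: exactly `r σ`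
real embeddings over every real embedding `σ` of `K` (any odd numbers `r σ ≤ n`; if all `r σ = n` the field `M`
is unramified over `K` at the infinite places), and `𝓞 L = 𝓞 K [t]` for some `t` with a minimal polynomial
congruent to `p` modulo `N` and with squarefree discriminant (`p` as in `Admissible`).

(The absolute value of the discriminant of `M` is `|disc K| ^ (n!)` times the norm of the relative
discriminant, so the same holds for the number `n_K(G, B)` of the problem. A Galois extension is counted once.)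

The proof. Let `f` be a monic polynomial of degree `n` over `𝓞 K` with trace zero, all of whose roots have
absolute values at most `2 B`, and `M` its splitting field. The `n!` monomials `θ_1 ^ (a_1) ... θ_n ^ (a_n)` in the
roots of `f` with `a_i ≤ n - i` span `M` over `K` (universal splitting algebra), so by Hadamard's inequality
`|disc M| ≤ C B ^ (d n! n (n - 1) / 2)`, `d = [K : ℚ]`. By the library (project CF of helper783 and coauthors:
squarefree discriminants, `L` has boundedly many such `f`), redone for polynomials in a residue class and near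
a given real shape (`U376/RF`, `U376/RL`), there are at least `c B ^ (d (n - 1) (n + 2) / 2)` fields `L` of
degree `n` with group `S_n` from such `f`, and `M` contains at most `2 ^ (n!)` of them.

(For fields `L` with squarefree discriminant `M` is also unramified over its quadratic subfield, Kondo over `ℚ`;
this is not used.)
-/

set_option autoImplicit false
set_option linter.all false

namespace Pool.Agent.Results.MP_b39724_nt.GaloisSymmetricGroup

open NumberField Polynomial

/-- The Galois extensions of `K` inside the algebraic closure of `K` with Galois group `S_n` whose absolute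
discriminant has absolute value at most `X`. -/
def GaloisFields (K : Type) [Field K] [NumberField K] (n : ℕ) (X : ℝ) :
    Set (IntermediateField K (AlgebraicClosure K)) :=
  {M | IsGalois K M ∧ Nonempty ((M ≃ₐ[K] M) ≃* Equiv.Perm (Fin n)) ∧
    ∃ h : NumberField M, ((|@NumberField.discr M _ h| : ℤ) : ℝ) ≤ X}

/-- The condition on the residue class of `p` modulo `N` at the primes which contain `N`. -/
def Admissible (K : Type) [Field K] [NumberField K] (N : ℕ) (p : (𝓞 K)[X]) : Prop :=
  ∀ 𝔭 : Ideal (𝓞 K), 𝔭.IsPrime → 𝔭 ≠ ⊥ → (N : 𝓞 K) ∈ 𝔭 →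
    ((2 : 𝓞 K) ∈ 𝔭 → Irreducible (p.map (Ideal.Quotient.mk 𝔭))) ∧
    ((2 : 𝓞 K) ∉ 𝔭 → p.discr ∉ 𝔭 ∨ ((N : 𝓞 K) ∈ 𝔭 ^ 2 ∧ p.discr ∉ 𝔭 ^ 2))

/-- `L` is of degree `n` over `K`, the Galois group of `K` acts on the embeddings of `L` in the algebraic
closure as the full symmetric group, `L` has exactly `r σ` real embeddings over every real embedding `σ` of
`K`, and its ring of integers is generated over that of `K` by one element `t` whose minimal polynomial is
congruent to `p` modulo `N` and has a discriminant which is not divisible by the square of a prime. -/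
def IsLocal (K : Type) [Field K] [NumberField K] (n : ℕ) (N : ℕ) (p : (𝓞 K)[X])
    (r : (K →+* ℝ) → ℕ) (L : IntermediateField K (AlgebraicClosure K)) : Prop :=
  Module.finrank K L = n ∧
    (∀ τ : Equiv.Perm (L →ₐ[K] AlgebraicClosure K),
      ∃ σ : AlgebraicClosure K ≃ₐ[K] AlgebraicClosure K,
        ∀ φ : L →ₐ[K] AlgebraicClosure K, τ φ = σ.toAlgHom.comp φ) ∧
    (∀ σ : K →+* ℝ, Nat.card {φ : L →+* ℝ // φ.comp (algebraMap K L) = σ} = r σ) ∧
    ∃ t : 𝓞 L, Algebra.adjoin (𝓞 K) {t} = ⊤ ∧
      (∀ j, (N : 𝓞 K) ∣ (minpoly (𝓞 K) t).coeff j - p.coeff j) ∧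
      ∀ 𝔭 : Ideal (𝓞 K), 𝔭.IsPrime → 𝔭 ≠ ⊥ → (minpoly (𝓞 K) t).discr ∉ 𝔭 ^ 2

/-- For every number field `K`, every odd `n ≥ 3`, every admissible residue class of polynomials of degree
`n` without term of degree `n - 1` and all odd numbers `r σ ≤ n` the number of the Galois extensions of `K`
with Galois group `S_n` and absolute discriminant at most `X` which contain an extension `L` of `K` of degree
`n` with the local conditions is at least `c X ^ ((1 + 2 / n) / n!)`. -/
theorem result : ∀ (K : Type) [Field K] [NumberField K] (n : ℕ), 3 ≤ n → Odd n →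
    ∀ N : ℕ, 0 < N → ∀ p : (𝓞 K)[X], p.Monic → p.natDegree = n → p.coeff (n - 1) = 0 →
    Admissible K N p → ∀ r : (K →+* ℝ) → ℕ, (∀ σ, Odd (r σ) ∧ r σ ≤ n) →
    ∃ c : ℝ, 0 < c ∧ ∃ X₀ : ℝ, ∀ X : ℝ, X₀ ≤ X → (GaloisFields K n X).Finite ∧
      c * X ^ ((1 + 2 / (n : ℝ)) / (n.factorial : ℝ)) ≤
        (({M ∈ GaloisFields K n X | ∃ L ≤ M, IsLocal K n N p r L}).ncard : ℝ) := by
  intro K _ _ n hn3 hodd N hN p hm hd ht hadm r hr
  obtain ⟨g, rfl⟩ := hodd
  rw [Nat.add_sub_cancel] at ht
  have hg : 1 ≤ g := by omega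
  obtain ⟨c, hc, X₀, h⟩ := Pool.Agent.U376.RL.galR K g hg N hN p hm hd ht
    (fun 𝔭 h1 h2 h3 h4 => (hadm 𝔭 h1 h2 h3).1 h4)
    (fun 𝔭 h1 h2 h3 h4 => (hadm 𝔭 h1 h2 h3).2 h4) r (fun σ => (hr σ).1) (fun σ => (hr σ).2)
  refine ⟨c, hc, X₀, fun X hX => ?_⟩
  have hfin : (GaloisFields K (2 * g + 1) X).Finite := by
    have h2 : 2 ≤ (2 * g + 1).factorial := by
      calc 2 ≤ 2 * g + 1 := by omega
        _ ≤ (2 * g + 1).factorial := Nat.self_le_factorial _
    refine (Pool.Agent.N783.CF.finf K (2 * g + 1).factorial (max X 1) h2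
      (le_max_right _ _)).subset ?_
    rintro M ⟨hG, ⟨e⟩, ⟨hM, hdisc⟩⟩
    exact ⟨Pool.Agent.U376.RL.finrank_gal M hG e, hM, hdisc.trans (le_max_left _ _)⟩
  refine ⟨hfin, (h X hX).trans ?_⟩
  have hsub : Pool.Agent.U376.RL.GalE g (fun f : (𝓞 K)[X] =>
      (∀ j, (N : 𝓞 K) ∣ f.coeff j - p.coeff j) ∧
        ∀ σ : K →+* ℝ, Pool.Agent.U376.RL.nR f σ = r σ) X ⊆
      {M ∈ GaloisFields K (2 * g + 1) X | ∃ L ≤ M, IsLocal K (2 * g + 1) N p r L} := by
    rintro M ⟨hG, he, hd', L, hLM, hNL, f, θ, hgen, hi, hs, hsym, hcg, hre⟩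
    refine ⟨⟨hG, he, hd'⟩, L, hLM, hgen.rank, hsym, ?_⟩
    exact Pool.Agent.U376.RL.locE_of hg L hgen hi hs hcg hre
  exact_mod_cast Set.ncard_le_ncard hsub (hfin.subset fun M hM => hM.1)

end Pool.Agent.Results.MP_b39724_nt.GaloisSymmetricGroup
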