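import Mathlib
import Pool.Agent.U737.MN.TopTwo
import Pool.Agent.Results.MP_b39724_nt.LargeActions

/-!
# Malle's conjecture for `C₂ ≀ (C_{ℓ₁} ≀ ... ≀ C_{ℓ_k} ≀ H)` over all sufficiently large number fields

`H` is any finite group acting transitively and faithfully on a finite set `P` of large degree, as in
`LargeActions`, and `ℓ₁, ..., ℓ_k` (`k ≥ 1`) are odd primes with `ℓ₁ ≥ 7`. For the iterated wreath product
`G = C₂ ≀ (C_{ℓ₁} ≀ ( ... (C_{ℓ_k} ≀ H)))` there is a number field `K₀` such that the asymptotic formula, with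
the exponents of Malle, holds over all number fields containing `K₀`. The trivial group on one point is
allowed as `H`. No realization of `H` over any number field is assumed.

The proof. `K₀` contains the `ℓ_i`-th roots of unity and `H` is a Galois group over every field containing
`K₀`. By `MP_af4c59_nt.PrimeWreaths` the number of extensions with group `C_{ℓ₁} ≀ ( ... )` with
discriminant at most `X` is at most `X ^ (1 / 6 + ε)`, and this is enough for the sum over these extensions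
in the proof of `LargeActions`. The action of `C_{ℓ₁} ≀ ( ... )` is not large in the sense of
`LargeActions`.

Project MN: helper737 with parts by helpers 55, 128, 178, 261, 278, 358, 404, 446, 458, 594, 608, 630, 765,
789, 810, 858, 869, 875, 876, 891, 894, 928, 980; realization over large number fields: helper880. The
definitions `ind`, `minInd`, `KConj`, `beta`, `IsC2Wreath`, `Ext`, `N`, `Large`, `MalleLarge` are those of
`LargeActions.lean`.
-/

set_option autoImplicit false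
set_option linter.all false

open Filter

namespace Pool.Agent.Results.MP_b39724_nt.TowerActions

open Pool.Agent.Results.MP_b39724_nt.LargeActions (minInd beta IsC2Wreath N Large MalleLarge
  exists_group minInd_eq beta_eq)

/-- `G ≤ S_n` is, up to a bijection `f` of `{1, ..., n}` with `P × ℤ/ℓ`, the wreath product `C_ℓ ≀ H`: it
consists of all permutations `(x, t) ↦ (h x, c(x) + t)` with `h ∈ H` and `c : P → ℤ/ℓ`. -/
def IsWreath (ℓ : ℕ) (H P : Type) [Group H] [MulAction H P] {n : ℕ}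
    (G : Subgroup (Equiv.Perm (Fin n))) : Prop :=
  ∃ f : Fin n ≃ P × ZMod ℓ, ∀ π : Equiv.Perm (Fin n), π ∈ G ↔ ∃ (h : H) (c : P → ZMod ℓ), ∀ i,
    f (π i) = (h • (f i).1, c (f i).1 + (f i).2)

/-- `Tower H P [ℓ₁, ..., ℓ_k] n G`: `G ≤ S_n` is `C_{ℓ₁} ≀ (C_{ℓ₂} ≀ ( ... ≀ (C_{ℓ_k} ≀ H)))`, where `H`
acts on `P`, and each group in the sequence acts on a set `{1, ..., m}`. -/
inductive Tower (H P : Type) [Group H] [MulAction H P] :
    List ℕ → (n : ℕ) → Subgroup (Equiv.Perm (Fin n)) → Prop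
  | one (ℓ n : ℕ) (G : Subgroup (Equiv.Perm (Fin n))) : IsWreath ℓ H P G → Tower H P [ℓ] n G
  | step (ℓ : ℕ) (ls : List ℕ) (m n : ℕ) (G : Subgroup (Equiv.Perm (Fin m)))
      (G' : Subgroup (Equiv.Perm (Fin n))) : Tower H P ls m G → IsWreath ℓ G (Fin m) G' →
      Tower H P (ℓ :: ls) n G'

/-- A nonempty list of odd primes, the first one at least `7`. -/
def OddPrimes (ls : List ℕ) : Prop :=
  (∃ (ℓ : ℕ) (ls' : List ℕ), ls = ℓ :: ls' ∧ 7 ≤ ℓ) ∧ ∀ l ∈ ls, l.Prime ∧ l ≠ 2

/-- The general theorem: the groups `G = C₂ ≀ G₀`, `G₀ = C_{ℓ₁} ≀ ( ... (C_{ℓ_k} ≀ H))`. -/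
def General : Prop :=
  ∀ (H P : Type) [Group H] [Finite H] [MulAction H P] [Finite P] [Nonempty P], Large H P →
    ∀ ls : List ℕ, OddPrimes ls →
      (∃ (m : ℕ) (G₀ : Subgroup (Equiv.Perm (Fin m))) (d : ℕ) (G : Subgroup (Equiv.Perm (Fin d))),
        m = ls.prod * Nat.card P ∧ Tower H P ls m G₀ ∧ d = 2 * m ∧ IsC2Wreath G₀ (Fin m) G ∧
          ∀ i j : Fin d, ∃ g ∈ G, g i = j) ∧
      ∀ (m : ℕ) (G₀ : Subgroup (Equiv.Perm (Fin m))) (d : ℕ) (G : Subgroup (Equiv.Perm (Fin d))),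
        Tower H P ls m G₀ → IsC2Wreath G₀ (Fin m) G →
        MalleLarge d G ∧ minInd G = 1 ∧ ∀ (K : Type) [Field K], beta K G = 1

theorem tower_conv {H P : Type} [Group H] [MulAction H P] {ls : List ℕ} {n : ℕ}
    {G : Subgroup (Equiv.Perm (Fin n))} :
    Tower H P ls n G ↔ Pool.Agent.U737.MN.Tower H P ls n G := by
  constructor
  · intro h
    induction h with
    | one ℓ n G hG => exact Pool.Agent.U737.MN.Tower.one ℓ n G hG
    | step ℓ ls m n G G' _ hG' ih => exact Pool.Agent.U737.MN.Tower.step ℓ ls m n G G' ih hG'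
  · intro h
    induction h with
    | one ℓ n G hG => exact Tower.one ℓ n G hG
    | step ℓ ls m n G G' _ hG' ih => exact Tower.step ℓ ls m n G G' ih hG'

theorem trans_pos {H P : Type} [Group H] [MulAction H P] [Finite P] [Nonempty P]
    [MulAction.IsPretransitive H P] {ls : List ℕ} {n : ℕ} {G : Subgroup (Equiv.Perm (Fin n))}
    (hG : Pool.Agent.U737.MN.Tower H P ls n G) :
    (∀ l ∈ ls, l.Prime) → MulAction.IsPretransitive G (Fin n) ∧ 0 < n := by
  induction hG with
  | one ℓ n G hG =>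
    intro h1
    refine ⟨Pool.Agent.U737.MN.trans_of hG, ?_⟩
    rw [Pool.Agent.U737.MN.clwr_n hG]
    exact Nat.mul_pos (h1 ℓ (by simp)).pos Nat.card_pos
  | step ℓ ls m n G G' hT hG' ih =>
    intro h1
    obtain ⟨g2, g3⟩ := ih (fun l hl => h1 l (by simp [hl]))
    have hne : Nonempty (Fin m) := ⟨⟨0, g3⟩⟩
    refine ⟨Pool.Agent.U737.MN.trans_of hG', ?_⟩
    rw [Pool.Agent.U737.MN.clwr_n hG']
    exact Nat.mul_pos (h1 ℓ (by simp)).pos Nat.card_pos

theorem malleLarge {H P : Type} [Group H] [Finite H] [MulAction H P] [Finite P] [Nonempty P]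
    (hL : Large H P) {ls : List ℕ} (hls : OddPrimes ls) {m : ℕ}
    {G₀ : Subgroup (Equiv.Perm (Fin m))} {d : ℕ} {G : Subgroup (Equiv.Perm (Fin d))}
    (hT : Tower H P ls m G₀) (hG : IsC2Wreath G₀ (Fin m) G) :
    MalleLarge d G ∧ minInd G = 1 ∧ ∀ (K : Type) [Field K], beta K G = 1 := by
  have i1 : MulAction.IsPretransitive H P := ⟨hL.transitive⟩
  have i3 : FaithfulSMul H P := ⟨fun {g h} hgh => by
    have := hL.faithful (h⁻¹ * g) (fun x => by rw [mul_smul, hgh x, inv_smul_smul])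
    exact (inv_mul_eq_one.1 this).symm⟩
  obtain ⟨⟨ℓ, ls', rfl, h7⟩, hpr⟩ := hls
  have hT' := tower_conv.1 hT
  obtain ⟨htr, hm⟩ := trans_pos hT' (fun l hl => (hpr l hl).1)
  have hne : Nonempty (Fin m) := ⟨⟨0, hm⟩⟩
  obtain ⟨f, hf⟩ := id hG
  have hmin : minInd G = 1 := minInd_eq hf
  have hbeta : ∀ (K : Type) [Field K], beta K G = 1 := fun K _ => beta_eq htr.exists_smul_eq hf K
  refine ⟨?_, hmin, hbeta⟩
  have hpos : 0 < (ℓ :: ls').prod := List.prod_pos (fun l hl => (hpr l hl).1.pos)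
  obtain ⟨K₀, i4, i5, hK₀⟩ := Pool.Agent.U737.MN.exists_base_roots H (ℓ :: ls').prod hpos
  refine ⟨K₀, i4, i5, fun K _ _ _ => ?_⟩
  obtain ⟨hocc, hroots⟩ := hK₀ K
  have hgood := Pool.Agent.U737.MN.good_of_large Pool.Agent.U737.MN.inp K H P hL.large hocc
  obtain ⟨hs, hgal, -, -⟩ := Pool.Agent.U737.MN.tower_sum K H P hgood ℓ ls' m G₀ hT'
    (fun l hl => ⟨(hpr l hl).1, hroots l (List.dvd_prod hl)⟩)
    (fun l hl => by
      have h5 := (hpr l (by simp [hl])).1.two_le
      have h6 := (hpr l (by simp [hl])).2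
      omega) h7
  obtain ⟨c, hc0, hlim⟩ :=
    Pool.Agent.U737.MN.asymp_iso_sum Pool.Agent.U737.MN.inp K G₀ (Fin m) hs hgal G hG
  refine ⟨c, hc0, ?_⟩
  rw [hmin, hbeta K]
  have hlim' : Tendsto (fun B : ℝ => (N K d G B : ℝ) / B) atTop (nhds c) := hlim
  simpa using hlim'

/-- Malle's asymptotic formula over all sufficiently large number fields for the groups
`C₂ ≀ (C_{ℓ₁} ≀ ( ... (C_{ℓ_k} ≀ H)))`. -/
theorem result : General := by
  intro H P _ _ _ _ _ hL ls hls
  refine ⟨?_, fun m G₀ d G hT hG => malleLarge hL hls hT hG⟩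
  have i1 : MulAction.IsPretransitive H P := ⟨hL.transitive⟩
  obtain ⟨⟨ℓ, ls', rfl, h7⟩, hpr⟩ := hls
  obtain ⟨m, G₀, hm, hT, htr⟩ := Pool.Agent.U737.MN.tower_exists H P ℓ ls'
    (fun l hl => (hpr l hl).1.pos)
  obtain ⟨d, G, hd, hG, hGt⟩ := exists_group G₀ (Fin m) htr.exists_smul_eq
  rw [Nat.card_fin] at hd
  exact ⟨m, G₀, d, G, hm, tower_conv.2 hT, hd, hG, hGt⟩

end Pool.Agent.Results.MP_b39724_nt.TowerActions
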